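import Mathlib
import Pool.Agent.U10.Q.Stm

/-!
# Project LQ, package C: counting the `c` with `c w = q + v s`
-/

set_option autoImplicit false

namespace Pool.Agent.U624.LQ.C

open Finset
open Pool.Agent.U10.Q (Rep S_C)

/-- the primes in `(m, 4 m]` -/
def V (m : ℕ) : Finset ℕ := (Ioc m (4 * m)).filter Nat.Prime

/-- the pairs `(v, w)` -/
def Pr (m : ℕ) : Finset (ℕ × ℕ) :=
  (V m ×ˢ Ioc (4 * m) (8 * m)).filter fun x => ¬ x.1 ∣ x.2

lemma card_not_dvd {m v : ℕ} (hv : m < v) :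
    4 * m - 7 ≤ ((Ioc (4 * m) (8 * m)).filter fun w => ¬ v ∣ w).card := by
  have h1 := Finset.card_filter_add_card_filter_not (s := Ioc (4 * m) (8 * m)) (fun w => v ∣ w)
  have h2 : ((Ioc (4 * m) (8 * m)).filter fun w => v ∣ w).card ≤ 7 := by
    calc ((Ioc (4 * m) (8 * m)).filter fun w => v ∣ w).card
        ≤ ((Ioc 0 (8 * m)).filter fun w => v ∣ w).card := by
          refine card_le_card (filter_subset_filter _ (Ioc_subset_Ioc_left (Nat.zero_le _)))
      _ = 8 * m / v := Nat.Ioc_filter_dvd_card_eq_div _ _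
      _ ≤ 7 := by
          have : 8 * m / v < 8 := by
            rw [Nat.div_lt_iff_lt_mul (by omega)]
            omega
          omega
  rw [Nat.card_Ioc] at h1
  omega

lemma card_pairs (m : ℕ) : (V m).card * (4 * m - 7) ≤ (Pr m).card := by
  have h1 : (Pr m).card = ∑ v ∈ V m, ((Ioc (4 * m) (8 * m)).filter fun w => ¬ v ∣ w).card := by
    unfold Pr
    rw [card_filter, sum_product]
    refine sum_congr rfl fun v _ => ?_
    rw [card_filter]
  rw [h1]
  rw [← smul_eq_mul]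
  refine card_nsmul_le_sum _ _ _ fun v hv => ?_
  have h2 : m < v := (mem_Ioc.1 (mem_filter.1 hv).1).1
  exact card_not_dvd h2

/-- the number `c` of the pair `(v, w)` -/
lemma exists_c {q m v w : ℕ} (hq : q.Prime) (hm : 1 ≤ m) (hmq : (8 * m) ^ 3 ≤ q)
    (hv : v ∈ V m) (hw : w ∈ Ioc (4 * m) (8 * m)) (hvw : ¬ v ∣ w) :
    ∃ c s : ℕ, c < q ∧ Rep q c ∧ q + v * s = c * w ∧ 0 < v * s ∧ v * s < 32 * m ^ 2 ∧
      64 * m ^ 2 ≤ c := by
  obtain ⟨hv1, hvp⟩ := mem_filter.1 hv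
  rw [mem_Ioc] at hv1 hw
  obtain ⟨hv1, hv2⟩ := hv1
  obtain ⟨hw1, hw2⟩ := hw
  have hcop : Nat.Coprime v w := (Nat.Prime.coprime_iff_not_dvd hvp).2 hvw
  have hw0 : w ≠ 0 := by omega
  have : NeZero w := ⟨hw0⟩
  obtain ⟨s, hs⟩ : ∃ s : ℕ, s = (-(q : ZMod w) * ((v : ZMod w))⁻¹).val := ⟨_, rfl⟩
  have hsw : s < w := by rw [hs]; exact ZMod.val_lt _
  have hdvd : w ∣ q + v * s := by
    rw [← ZMod.natCast_eq_zero_iff]
    push_cast
    rw [hs, ZMod.natCast_zmod_val]
    have h1 := ZMod.coe_mul_inv_eq_one v hcop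
    linear_combination (-(q : ZMod w)) * h1
  obtain ⟨c, hc⟩ := hdvd
  rw [mul_comm w c] at hc
  -- sizes
  have hX : 512 * m ^ 3 ≤ q := by
    have : (8 * m) ^ 3 = 512 * m ^ 3 := by ring
    omega
  have hs0 : s ≠ 0 := by
    rintro h
    rw [h, mul_zero, add_zero] at hc
    have h1 : w ∣ q := ⟨c, by rw [hc]; ring⟩
    rcases (Nat.dvd_prime hq).1 h1 with h2 | h2
    · omega
    · have h3 : w ≤ 8 * m := hw2
      have h4 : m ≤ m ^ 3 := Nat.le_self_pow (by norm_num) m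
      omega
  have hvs : v * s < 32 * m ^ 2 := by
    have h1 : v * s ≤ (4 * m) * s := Nat.mul_le_mul_right _ hv2
    have h2 : (4 * m) * s < (4 * m) * (8 * m) := Nat.mul_lt_mul_of_pos_left (by omega) (by omega)
    nlinarith
  have hcge : 64 * m ^ 2 ≤ c := by
    by_contra hcon
    push Not at hcon
    have h1 : c * w ≤ (64 * m ^ 2) * (8 * m) := Nat.mul_le_mul hcon.le hw2
    have h1' : c * w < (64 * m ^ 2) * (8 * m) := by
      calc c * w < (64 * m ^ 2) * w := Nat.mul_lt_mul_of_pos_right hcon (by omega)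
        _ ≤ _ := Nat.mul_le_mul_left _ hw2
    have h2 : (64 * m ^ 2) * (8 * m) = 512 * m ^ 3 := by ring
    omega
  have hmm : m ≤ m ^ 2 := Nat.le_self_pow (by norm_num) m
  have hm3 : m ^ 2 ≤ m ^ 3 := Nat.pow_le_pow_right hm (by norm_num)
  have hsc : s < c := by omega
  have hcq : c < q := by
    have h1 : c * w < q * w := by
      rw [← hc]
      have h3 : q * 2 ≤ q * w := Nat.mul_le_mul_left _ (by omega)
      omega
    exact lt_of_mul_lt_mul_right h1 (Nat.zero_le _)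
  have hcs : c * s ≤ q := by
    have h1 : c * s * w ≤ q * w := by
      have e1 : c * s * w = (q + v * s) * s := by rw [hc]; ring
      rw [e1]
      obtain ⟨t, ht⟩ : ∃ t, w = s + 1 + t := ⟨w - s - 1, by omega⟩
      have h2 : v * s * s ≤ q := by
        have h3 : v * s * s ≤ (32 * m ^ 2) * (8 * m) := Nat.mul_le_mul hvs.le (by omega)
        have h4 : (32 * m ^ 2) * (8 * m) = 256 * m ^ 3 := by ring
        omega
      rw [ht]
      nlinarith [Nat.zero_le (q * t)]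
    exact le_of_mul_le_mul_right h1 (by omega)
  refine ⟨c, s, hcq, ⟨v, w, s, hvp.one_lt.le, by omega, by omega, hcs, hsc, hc⟩, hc, ?_, hvs, hcge⟩
  exact Nat.mul_pos hvp.pos (Nat.pos_of_ne_zero hs0)

/-- the count -/
lemma count {q m : ℕ} (hq : q.Prime) (hm : 32 ≤ m) (hmq : (8 * m) ^ 3 ≤ q) :
    (V m).card * (4 * m - 7) ≤ 2 * {c : ℕ | c < q ∧ Rep q c}.ncard := by
  classical
  have hm1 : 1 ≤ m := by omega
  set T : Finset ℕ := (range q).filter (fun c => Rep q c) with hT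
  have hTc : {c : ℕ | c < q ∧ Rep q c}.ncard = T.card := by
    rw [← Set.ncard_coe_finset]
    congr 1
    ext c
    simp [hT]
  rw [hTc]
  have hex : ∀ x : ℕ × ℕ, ∃ c : ℕ, x ∈ Pr m → ∃ s : ℕ, c < q ∧ Rep q c ∧
      q + x.1 * s = c * x.2 ∧ 0 < x.1 * s ∧ x.1 * s < 32 * m ^ 2 ∧ 64 * m ^ 2 ≤ c := by
    intro x
    by_cases hx : x ∈ Pr m
    · have h1 := mem_filter.1 hx
      have h2 := mem_product.1 h1.1
      obtain ⟨c, s, h⟩ := exists_c hq hm1 hmq h2.1 h2.2 h1.2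
      exact ⟨c, fun _ => ⟨s, h⟩⟩
    · exact ⟨0, fun h => absurd h hx⟩
  choose f hf using hex
  have hle := card_le_mul_card_image_of_maps_to (f := f) (s := Pr m) (t := T)
    (fun x hx => by
      obtain ⟨s, h1, h2, -⟩ := hf x hx
      rw [hT, mem_filter, mem_range]
      exact ⟨h1, h2⟩) 2 ?_
  · exact (card_pairs m).trans hle
  intro c _
  by_contra hcon
  push Not at hcon
  obtain ⟨x, hx, y, hy, z, hz, hxy, hxz, hyz⟩ := two_lt_card.1 hcon
  rw [mem_filter] at hx hy hz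
  -- two pairs with the same `c` have the same `w` and the same product `v s`
  have key : ∀ x y : ℕ × ℕ, x ∈ Pr m → f x = c → y ∈ Pr m → f y = c →
      x.2 = y.2 := by
    intro x y hx hxc hy hyc
    obtain ⟨s, -, -, h3, h4, h5, h6⟩ := hf x hx
    obtain ⟨t, -, -, k3, k4, k5, k6⟩ := hf y hy
    rw [hxc] at h3 h6
    rw [hyc] at k3
    rcases lt_trichotomy x.2 y.2 with h | h | h
    · exfalso
      have h7 : c * x.2 + c ≤ c * y.2 := by
        calc c * x.2 + c = c * (x.2 + 1) := by ring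
          _ ≤ c * y.2 := Nat.mul_le_mul_left _ h
      omega
    · exact h
    · exfalso
      have h7 : c * y.2 + c ≤ c * x.2 := by
        calc c * y.2 + c = c * (y.2 + 1) := by ring
          _ ≤ c * x.2 := Nat.mul_le_mul_left _ h
      omega
  have e1 := key x y hx.1 hx.2 hy.1 hy.2
  have e2 := key x z hx.1 hx.2 hz.1 hz.2
  have hvx : x.1 ≠ y.1 := fun h => hxy (Prod.ext h e1)
  have hvz : x.1 ≠ z.1 := fun h => hxz (Prod.ext h e2)
  have hyz' : y.1 ≠ z.1 := fun h => hyz (Prod.ext h (e1.symm.trans e2))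
  obtain ⟨s, -, -, h3, h4, h5, -⟩ := hf x hx.1
  obtain ⟨t, -, -, k3, -, -, -⟩ := hf y hy.1
  obtain ⟨u, -, -, l3, -, -, -⟩ := hf z hz.1
  rw [hx.2] at h3
  rw [hy.2, ← e1] at k3
  rw [hz.2, ← e2] at l3
  have hM1 : x.1 * s = y.1 * t := by omega
  have hM2 : x.1 * s = z.1 * u := by omega
  have mem : ∀ x : ℕ × ℕ, x ∈ Pr m → m < x.1 ∧ x.1.Prime := by
    intro x hx
    have h1 := (mem_product.1 (mem_filter.1 hx).1).1
    have h2 := mem_filter.1 h1
    exact ⟨(mem_Ioc.1 h2.1).1, h2.2⟩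
  obtain ⟨px, px'⟩ := mem x hx.1
  obtain ⟨py, py'⟩ := mem y hy.1
  obtain ⟨pz, pz'⟩ := mem z hz.1
  have c1 : Nat.Coprime x.1 y.1 := (Nat.coprime_primes px' py').2 hvx
  have c2 : Nat.Coprime x.1 z.1 := (Nat.coprime_primes px' pz').2 hvz
  have c3 : Nat.Coprime y.1 z.1 := (Nat.coprime_primes py' pz').2 hyz'
  have d1 : x.1 * y.1 ∣ x.1 * s :=
    Nat.Coprime.mul_dvd_of_dvd_of_dvd c1 (dvd_mul_right _ _) (hM1 ▸ dvd_mul_right _ _)
  have d2 : x.1 * y.1 * z.1 ∣ x.1 * s :=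
    Nat.Coprime.mul_dvd_of_dvd_of_dvd (Nat.Coprime.mul_left c2 c3) d1 (hM2 ▸ dvd_mul_right _ _)
  have h8 := Nat.le_of_dvd h4 d2
  have h9 : m * m * m ≤ x.1 * y.1 * z.1 :=
    Nat.mul_le_mul (Nat.mul_le_mul px.le py.le) pz.le
  have h10 : 32 * (m * m) ≤ m * m * m := by
    rw [mul_comm 32]
    exact Nat.mul_le_mul_left _ hm
  nlinarith

/-- Chebyshev: `m ≤ |V m| log (4 m)` for large `m` -/
lemma cheb : ∃ M : ℕ, ∀ m : ℕ, M ≤ m → (m : ℝ) ≤ (V m).card * Real.log ((4 * m : ℕ) : ℝ) := by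
  have h := (isLittleO_log_rpow_atTop (show (0 : ℝ) < 1 / 2 by norm_num)).bound
    (show (0 : ℝ) < 1 / 40 by norm_num)
  have h1 := tendsto_natCast_atTop_atTop (R := ℝ) |>.eventually h
  obtain ⟨M, hM⟩ := Filter.eventually_atTop.1 (h1.and (Filter.eventually_ge_atTop 100))
  refine ⟨M + 100, fun m hm => ?_⟩
  obtain ⟨h2, -⟩ := hM (4 * m) (by omega)
  obtain ⟨x, hx⟩ : ∃ x : ℝ, x = ((4 * m : ℕ) : ℝ) := ⟨_, rfl⟩
  rw [← hx] at h2 ⊢
  have hx100 : (100 : ℝ) ≤ x := by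
    rw [hx]
    have : 100 ≤ 4 * m := by omega
    exact_mod_cast this
  have hx4 : x = 4 * m := by rw [hx]; push_cast; ring
  have hlog0 : 0 ≤ Real.log x := Real.log_nonneg (by linarith)
  rw [Real.norm_of_nonneg hlog0, Real.norm_of_nonneg (by positivity), ← Real.sqrt_eq_rpow] at h2
  have hsq : √x * √x = x := Real.mul_self_sqrt (by linarith)
  have hs0 : 0 ≤ √x := Real.sqrt_nonneg _
  have hs10 : 10 ≤ √x := by
    rw [show (10 : ℝ) = √100 by
      rw [show (100 : ℝ) = 10 ^ 2 by norm_num, Real.sqrt_sq (by norm_num)]]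
    exact Real.sqrt_le_sqrt hx100
  -- the difference of the theta functions
  have hth : Chebyshev.theta ((4 * m : ℕ) : ℝ) - Chebyshev.theta ((m : ℕ) : ℝ) =
      ∑ p ∈ V m, Real.log p := by
    unfold Chebyshev.theta V
    rw [Nat.floor_natCast, Nat.floor_natCast, sum_filter, sum_filter, sum_filter,
      ← Finset.sum_Ioc_consecutive (fun p => if p.Prime then Real.log p else 0) (Nat.zero_le m)
        (show m ≤ 4 * m by omega)]
    ring
  have hsum : ∑ p ∈ V m, Real.log p ≤ (V m).card * Real.log x := by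
    rw [← nsmul_eq_mul]
    refine sum_le_card_nsmul _ _ _ fun p hp => ?_
    have h3 := mem_filter.1 hp
    have h4 := (mem_Ioc.1 h3.1).2
    rw [hx]
    exact Real.log_le_log (by exact_mod_cast h3.2.pos) (by exact_mod_cast h4)
  have hge := Chebyshev.theta_ge (4 * m)
  have hle := Chebyshev.theta_le_log4_mul_x (x := (m : ℝ)) (by positivity)
  have hlog4 : Real.log 4 = 2 * Real.log 2 := by
    rw [show (4 : ℝ) = 2 ^ 2 by norm_num, Real.log_pow]
    norm_num
  have hlog2 : (0.6931 : ℝ) < Real.log 2 := by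
    have := Real.log_two_gt_d9
    linarith
  have hlog2' : Real.log 2 < 1 := by
    have := Real.log_two_lt_d9
    linarith
  have hl1 : Real.log (x + 1) ≤ Real.log x + 1 := by
    calc Real.log (x + 1) ≤ Real.log (2 * x) := Real.log_le_log (by linarith) (by linarith)
      _ = Real.log 2 + Real.log x := Real.log_mul (by norm_num) (by linarith)
      _ ≤ _ := by linarith
  rw [← hx] at hge hth
  rw [hlog4] at hle
  have h5 : √x * Real.log x ≤ x / 40 := by
    calc √x * Real.log x ≤ √x * (1 / 40 * √x) := mul_le_mul_of_nonneg_left h2 hs0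
      _ = _ := by rw [← mul_assoc, mul_comm √x (1 / 40), mul_assoc, hsq]; ring
  have h6 : Real.log x ≤ x / 400 := by nlinarith
  have h7 : (m : ℝ) = x / 4 := by rw [hx4]; ring
  have h8 : 2 * √x * Real.log x ≤ x / 20 := by nlinarith
  nlinarith

theorem proof : S_C := by
  obtain ⟨M, hM⟩ := cheb
  refine ⟨1 / 256, by norm_num, (8 * (M + 32 + 1)) ^ 3, fun q hq hQq => ?_⟩
  -- the scale `m`
  obtain ⟨m, hm1, hm2⟩ : ∃ m : ℕ, (8 * m) ^ 3 ≤ q ∧ q < (8 * (m + 1)) ^ 3 := by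
    have hex : ∃ m : ℕ, q < (8 * (m + 1)) ^ 3 := ⟨q, by
      calc q < 8 * (q + 1) := by omega
        _ ≤ (8 * (q + 1)) ^ 3 := Nat.le_self_pow (by norm_num) _⟩
    classical
    refine ⟨Nat.find hex, ?_, Nat.find_spec hex⟩
    rcases Nat.eq_zero_or_pos (Nat.find hex) with h0 | h0
    · rw [h0]
      norm_num
    · have h1 := Nat.find_min hex (m := Nat.find hex - 1) (by omega)
      rw [Nat.sub_add_cancel h0] at h1
      omega
  have hmM : M + 32 < m + 1 := by
    by_contra hcon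
    push Not at hcon
    have h1 : (8 * (m + 1)) ^ 3 ≤ (8 * (M + 32 + 1)) ^ 3 :=
      Nat.pow_le_pow_left (by omega) 3
    omega
  have h1 := hM m (by omega)
  have h2 := count hq (by omega) hm1
  have h3 : (V m).card * (2 * m) ≤ (V m).card * (4 * m - 7) := Nat.mul_le_mul_left _ (by omega)
  have h4 : (V m).card * m ≤ {c : ℕ | c < q ∧ Rep q c}.ncard := by nlinarith
  have h4' : ((V m).card : ℝ) * m ≤ ({c : ℕ | c < q ∧ Rep q c}.ncard : ℝ) := by exact_mod_cast h4
  have hmr : (1 : ℝ) ≤ m := by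
    have : 1 ≤ m := by omega
    exact_mod_cast this
  have h4mq : 4 * m ≤ q := by
    have h5 : 4 * m ≤ (8 * m) ^ 3 := by
      calc 4 * m ≤ 8 * m := by omega
        _ ≤ (8 * m) ^ 3 := Nat.le_self_pow (by norm_num) _
    omega
  have hlog1 : Real.log ((4 * m : ℕ) : ℝ) ≤ Real.log q :=
    Real.log_le_log (by
      have : 0 < 4 * m := by omega
      exact_mod_cast this) (by exact_mod_cast h4mq)
  have hq1 : (1 : ℝ) < q := by exact_mod_cast hq.one_lt
  have hlogq : 0 < Real.log q := Real.log_pos hq1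
  rw [div_le_iff₀ hlogq]
  have hpow : (q : ℝ) ^ ((2 : ℝ) / 3) ≤ 256 * (m : ℝ) ^ 2 := by
    have h5 : (q : ℝ) ≤ ((8 * ((m : ℝ) + 1))) ^ (3 : ℕ) := by
      have : (q : ℝ) ≤ (((8 * (m + 1)) ^ 3 : ℕ) : ℝ) := by exact_mod_cast hm2.le
      push_cast at this
      exact this
    calc (q : ℝ) ^ ((2 : ℝ) / 3) ≤ (((8 * ((m : ℝ) + 1))) ^ (3 : ℕ)) ^ ((2 : ℝ) / 3) :=
          Real.rpow_le_rpow (by linarith) h5 (by norm_num)
      _ = (8 * ((m : ℝ) + 1)) ^ (2 : ℕ) := by
          rw [← Real.rpow_natCast, ← Real.rpow_mul (by positivity), ← Real.rpow_natCast]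
          congr 1
          norm_num
      _ ≤ 256 * (m : ℝ) ^ 2 := by nlinarith
  have hV0 : (0 : ℝ) ≤ (V m).card := by positivity
  calc 1 / 256 * (q : ℝ) ^ ((2 : ℝ) / 3) ≤ 1 / 256 * (256 * (m : ℝ) ^ 2) := by
        gcongr
    _ = m * m := by ring
    _ ≤ ((V m).card * Real.log ((4 * m : ℕ) : ℝ)) * m := by
        exact mul_le_mul_of_nonneg_right h1 (by linarith)
    _ ≤ ((V m).card * Real.log q) * m := by
        gcongr
    _ = ((V m).card * m) * Real.log q := by ring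
    _ ≤ _ := mul_le_mul_of_nonneg_right h4' hlogq.le

end Pool.Agent.U624.LQ.C
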